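import Pool.Agent.Lib.FVol.Fek
import Pool.Agent.Lib.FVol.Cycle

/-!
The upper bound `FV(f) ≤ C log λ(f)` for pseudo-Anosov maps coded by closed paths of
(generalised) Rauzy-Veech induction, with `C` depending on the number of letters only.
-/

set_option autoImplicit false

open Filter Topology
open Pool.Agent.Lib.FVol

namespace Pool.Agent.Results.MP_e3aa0a_gt.UpperBound

theorem result (A V G : Type) [Fintype A] [DecidableEq A] [Group G] (d : Dat A V G)
    (hd : Good d) (φ : G →* G) (c : V → G) (μ : ℝ) (hμ : 1 < μ)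
    (h : Relation.ReflTransGen Rv d (tw φ c μ d)) :
    bd2 G (cyc d) = 0 ∧
    (∀ k : ℕ, ∃ b : C3 G, bd G b = push (hpow φ k) (cyc d) - cyc d) ∧
    ∃ F : ℝ, Tendsto (fun k : ℕ => (fill (push (hpow φ k) (cyc d) - cyc d) : ℝ) / k) atTop (𝓝 F) ∧
      F ≤ (56 * (Fintype.card A : ℝ) + 73) * ((Fintype.card A : ℝ) + 2) * (Fintype.card A : ℝ)
        * (Real.log μ / Real.log 2) :=
  ⟨bd2_cyc hd, fun k => (fil_iter hd h hμ k).imp fun _ hb => hb.1, filling_volume_le hd hμ h⟩

end Pool.Agent.Results.MP_e3aa0a_gt.UpperBound
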